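import Pool.Agent.H.MP_97dcc2_an.A

namespace Pool.Agent.Results.MP_97dcc2_an.Yes

open Set Topology Filter MeasureTheory
open scoped ContDiff

/-- `-Δ v + g(v) ≥ 0` on `Om` in the sense of distributions. -/
def Super {N : ℕ} (Om : Set (EuclideanSpace ℝ (Fin N))) (g : ℝ → ℝ)
    (v : EuclideanSpace ℝ (Fin N) → ℝ) : Prop :=
  ∀ φ : EuclideanSpace ℝ (Fin N) → ℝ, ContDiff ℝ ∞ φ → HasCompactSupport φ → tsupport φ ⊆ Om →
    (∀ x, 0 ≤ φ x) →
      0 ≤ (∫ x in Om, v x * -(Laplacian.laplacian φ x)) + ∫ x in Om, g (v x) * φ x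

open H.MP_97dcc2_an in
theorem result (N : ℕ) (Om : Set (EuclideanSpace ℝ (Fin N))) (hO : IsOpen Om) (g : ℝ → ℝ)
    (hg : Continuous g) (hs : ∀ t, 0 ≤ g t * t)
    (u : ℕ → EuclideanSpace ℝ (Fin N) → ℝ) (v : EuclideanSpace ℝ (Fin N) → ℝ)
    (hu : ∀ n, IntegrableOn (u n) Om) (hgu : ∀ n, IntegrableOn (fun x => g (u n x)) Om)
    (hsup : ∀ n, Super Om g (u n)) (hb : ∃ C : ℝ, ∀ n, ∫ x in Om, |g (u n x)| ≤ C)
    (hv : IntegrableOn v Om)
    (hc : Tendsto (fun n => ∫ x in Om, |u n x - v x|) atTop (𝓝 0)) :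
    IntegrableOn (fun x => g (v x)) Om ∧ Super Om g v := by
  have hm := hO.measurableSet
  have h1 : TendstoInMeasure (volume.restrict Om) u atTop v := by
    refine tendstoInMeasure_of_tendsto_eLpNorm (p := 1) one_ne_zero (fun n => (hu n).1) hv.1 ?_
    have h2 := ENNReal.tendsto_ofReal hc
    rw [ENNReal.ofReal_zero] at h2
    refine h2.congr fun n => ?_
    rw [eLpNorm_one_eq_lintegral_enorm, ← ofReal_integral_norm_eq_lintegral_enorm ((hu n).sub hv)]
    rfl
  obtain ⟨ns, hns, hae⟩ := h1.exists_seq_tendsto_ae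
  have hgv : IntegrableOn (fun x => g (v x)) Om := by
    obtain ⟨C, hC⟩ := hb
    refine memLp_one_iff_integrable.1 ⟨hg.comp_aestronglyMeasurable hv.1, ?_⟩
    refine lt_of_le_of_lt (Lp.eLpNorm_le_of_ae_tendsto (u := atTop) (C := ENNReal.ofReal C)
      (f := fun i x => g (u (ns i) x)) (Eventually.of_forall fun i => ?_)
      (fun i => (hgu _).1) ?_) ENNReal.ofReal_lt_top
    · rw [eLpNorm_one_eq_lintegral_enorm, ← ofReal_integral_norm_eq_lintegral_enorm (hgu _)]
      exact ENNReal.ofReal_le_ofReal (hC _)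
    · filter_upwards [hae] with x hx
      exact (hg.tendsto _).comp hx
  refine ⟨hgv, fun φ hφ hφc hφs h0 => ?_⟩
  obtain ⟨C, hC⟩ := Lp_bdd hφ hφc
  obtain ⟨B, hB⟩ := hφ.continuous.bounded_above_of_compact_support hφc
  have hφi : Integrable φ (volume.restrict Om) :=
    (hφ.continuous.integrable_of_hasCompactSupport hφc).integrableOn
  have key : ∀ k : ℕ, ∃ Φ : ℝ → ℝ, Continuous Φ ∧ Continuous (deriv Φ) ∧ (∀ t, |Φ t| ≤ |t|) ∧
      (∀ t, |deriv Φ t| ≤ 1) ∧ (∀ t : ℝ, t ≤ k → Φ t = t ∧ deriv Φ t = 1) ∧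
      ∫ x in Om, Φ (v x) * Lp φ x ≤ ∫ x in Om, g (v x) * (deriv Φ (v x) * φ x) := by
    intro k
    obtain ⟨Φ, p1, p2, p3, p4, p5, p6, p7⟩ := exPhi (k : ℝ) (Nat.cast_nonneg k)
    have hz : Φ 0 = 0 := (p6 0 (Nat.cast_nonneg k)).1
    have pc : Continuous (deriv Φ) := (contDiff_infty_iff_deriv.1 p1).2.continuous
    have pa : ∀ t, |deriv Φ t| ≤ 1 := fun t => by rw [abs_of_nonneg (p4 t)]; exact p5 t
    refine ⟨Φ, p1.continuous, pc, fun t => ?_, pa, p6, ?_⟩
    · have := p3.dist_le_mul t 0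
      simpa [hz, Real.dist_eq] using this
    have k1 : ∀ n, ∫ x in Om, Φ (u n x) * Lp φ x ≤
        ∫ x in Om, g (u n x) * (deriv Φ (u n x) * φ x) := by
      intro n
      have h2 := kato (μ := volume) hO ((integrable_indicator_iff hm).2 (hu n))
        ((integrable_indicator_iff hm).2 (hgu n)) (fun ψ a1 a2 a3 a4 => ?_) hφ hφc hφs h0 p1 p2 p3
        hz p4 p5
      · rw [← integral_indicator hm, ← integral_indicator hm]
        refine le_of_eq_of_le ?_ (h2.trans_eq ?_)
        all_goals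
          congr 1
          funext x
          by_cases hx : x ∈ Om <;> simp [hx, hz]
      · have h3 := hsup n ψ a1 a2 a3 a4
        rw [Lp_eq a1] at h3
        simp only [mul_neg, integral_neg] at h3
        simp only [← indicator_mul_left, integral_indicator hm]
        linarith
    obtain ⟨M, hM⟩ : ∃ M : ℝ, ∀ t, g t * deriv Φ t ≤ M := by
      obtain ⟨M, hM⟩ := (isCompact_Icc (a := (0 : ℝ)) (b := k + 1)).bddAbove_image
        (hg.mul pc).continuousOn
      refine ⟨max M 0, fun t => ?_⟩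
      rcases lt_or_ge t 0 with h | h
      · have : g t ≤ 0 := by nlinarith [hs t]
        exact (mul_nonpos_of_nonpos_of_nonneg this (p4 t)).trans (le_max_right _ _)
      · rcases le_total t (k + 1) with h2 | h2
        · exact (hM ⟨t, ⟨h, h2⟩, rfl⟩).trans (le_max_left _ _)
        · rw [p7 t h2, mul_zero]
          exact le_max_right _ _
    have hi : ∀ w : EuclideanSpace ℝ (Fin N) → ℝ, AEStronglyMeasurable w (volume.restrict Om) →
        IntegrableOn (fun x => g (w x)) Om →
        IntegrableOn (fun x => g (w x) * (deriv Φ (w x) * φ x)) Om := by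
      intro w hw hw2
      refine Integrable.mul_bdd (c := B) hw2
        ((pc.comp_aestronglyMeasurable hw).mul hφi.1) (ae_of_all _ fun x => ?_)
      rw [norm_mul]
      exact (mul_le_of_le_one_left (norm_nonneg _) (pa _)).trans (hB x)
    have l1 := lim_mul p3 hz (fun i => hu (ns i)) hv (Lp_cont hφ).aestronglyMeasurable hC
      (hc.comp hns.tendsto_atTop)
    have l2 : Tendsto (fun i => ∫ x in Om, max (g (u (ns i) x) * (deriv Φ (u (ns i) x) * φ x))
        (g (v x) * (deriv Φ (v x) * φ x))) atTop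
        (𝓝 (∫ x in Om, g (v x) * (deriv Φ (v x) * φ x))) := by
      refine tendsto_integral_of_dominated_convergence
        (fun x => |g (v x) * (deriv Φ (v x) * φ x)| + |M * φ x|)
        (fun i => ((hi _ (hu _).1 (hgu _)).sup (hi _ hv.1 hgv)).1)
        ((hi _ hv.1 hgv).abs.add (hφi.const_mul M).abs) (fun i => ae_of_all _ fun x => ?_) ?_
      · have a1 := mul_le_mul_of_nonneg_right (hM (u (ns i) x)) (h0 x)
        rw [mul_assoc] at a1
        have a2 := le_abs_self (M * φ x)
        have a3 := abs_nonneg (M * φ x)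
        have a4 := le_abs_self (g (v x) * (deriv Φ (v x) * φ x))
        have a5 := neg_abs_le (g (v x) * (deriv Φ (v x) * φ x))
        have a6 := abs_nonneg (g (v x) * (deriv Φ (v x) * φ x))
        rw [Real.norm_eq_abs, abs_le]
        exact ⟨le_max_of_le_right (by linarith), max_le (by linarith) (by linarith)⟩
      · filter_upwards [hae] with x hx
        have := (((hg.tendsto _).comp hx).mul (((pc.tendsto _).comp hx).mul_const (φ x))).max
          (tendsto_const_nhds (x := g (v x) * (deriv Φ (v x) * φ x)))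
        rw [max_self] at this
        exact this
    refine le_of_tendsto_of_tendsto' l1 l2 fun i => (k1 _).trans ?_
    exact integral_mono (hi _ (hu _).1 (hgu _)) ((hi _ (hu _).1 (hgu _)).sup (hi _ hv.1 hgv))
      fun x => le_max_left _ _
  choose Φ q1 q2 q3 q4 q5 q6 using key
  have hev : ∀ x, ∀ᶠ k : ℕ in atTop, v x ≤ k := fun x =>
    tendsto_natCast_atTop_atTop.eventually (eventually_ge_atTop (v x))
  have m1 : Tendsto (fun k => ∫ x in Om, Φ k (v x) * Lp φ x) atTop
      (𝓝 (∫ x in Om, v x * Lp φ x)) := by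
    refine tendsto_integral_of_dominated_convergence (fun x => |v x| * C)
      (fun k => ((q1 k).comp_aestronglyMeasurable hv.1).mul (Lp_cont hφ).aestronglyMeasurable)
      (hv.abs.mul_const C) (fun k => ae_of_all _ fun x => ?_) (ae_of_all _ fun x => ?_)
    · rw [norm_mul]
      exact mul_le_mul (q3 k _) (hC x) (norm_nonneg _) (abs_nonneg _)
    · refine tendsto_const_nhds.congr' ?_
      filter_upwards [hev x] with k hk
      rw [(q5 k _ hk).1]
  have m2 : Tendsto (fun k => ∫ x in Om, g (v x) * (deriv (Φ k) (v x) * φ x)) atTop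
      (𝓝 (∫ x in Om, g (v x) * φ x)) := by
    refine tendsto_integral_of_dominated_convergence (fun x => |g (v x)| * B)
      (fun k => hgv.1.mul (((q2 k).comp_aestronglyMeasurable hv.1).mul hφi.1))
      (hgv.abs.mul_const B) (fun k => ae_of_all _ fun x => ?_) (ae_of_all _ fun x => ?_)
    · rw [norm_mul, norm_mul]
      exact mul_le_mul_of_nonneg_left
        ((mul_le_of_le_one_left (norm_nonneg _) (q4 k _)).trans (hB x)) (abs_nonneg _)
    · refine tendsto_const_nhds.congr' ?_
      filter_upwards [hev x] with k hk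
      rw [(q5 k _ hk).2, one_mul]
  have := le_of_tendsto_of_tendsto' m1 m2 q6
  rw [Lp_eq hφ]
  simp only [mul_neg, integral_neg]
  linarith

end Pool.Agent.Results.MP_97dcc2_an.Yes
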